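import Mathlib

namespace Pool.Agent.Lib.MP_60b36a_gt

open Matrix Finset

/-- The diagonal Lorentz form matrix. -/
noncomputable def JJ (n : ℕ) : Matrix (Fin (n + 1)) (Fin (n + 1)) ℝ :=
  Matrix.diagonal (fun i => if i = 0 then (-1 : ℝ) else 1)

/-- The Lorentz bilinear form. -/
noncomputable def lor {n : ℕ} (x y : Fin (n + 1) → ℝ) : ℝ :=
  -(x 0 * y 0) + ∑ i : Fin n, x i.succ * y i.succ

/-- Positive Lorentz matrices. -/
def IsLor {n : ℕ} (g : GL (Fin (n + 1)) ℝ) : Prop :=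
  (g : Matrix (Fin (n + 1)) (Fin (n + 1)) ℝ)ᵀ * JJ n * (g : Matrix (Fin (n + 1)) (Fin (n + 1)) ℝ)
    = JJ n ∧ 0 < (g : Matrix (Fin (n + 1)) (Fin (n + 1)) ℝ) 0 0

/-- The orbit point of the base point. -/
def pt {n : ℕ} (g : GL (Fin (n + 1)) ℝ) : Fin (n + 1) → ℝ :=
  fun i => (g : Matrix (Fin (n + 1)) (Fin (n + 1)) ℝ) i 0

/-- The action on vectors. -/
def act {n : ℕ} (g : GL (Fin (n + 1)) ℝ) (x : Fin (n + 1) → ℝ) : Fin (n + 1) → ℝ :=
  (g : Matrix (Fin (n + 1)) (Fin (n + 1)) ℝ) *ᵥ x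

variable {n : ℕ}

lemma lor_eq (x y : Fin (n + 1) → ℝ) : lor x y = x ⬝ᵥ (JJ n *ᵥ y) := by
  unfold lor JJ
  simp only [dotProduct, Matrix.mulVec_diagonal]
  rw [Fin.sum_univ_succ]
  simp [Fin.succ_ne_zero]

lemma lor_comm (x y : Fin (n + 1) → ℝ) : lor x y = lor y x := by
  unfold lor
  simp only [mul_comm]

lemma lor_act {g : GL (Fin (n + 1)) ℝ} (hg : IsLor g) (x y : Fin (n + 1) → ℝ) :
    lor (act g x) (act g y) = lor x y := by
  rw [lor_eq, lor_eq]
  unfold act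
  conv_rhs => rw [← hg.1]
  rw [Matrix.mul_assoc, ← Matrix.mulVec_mulVec, ← Matrix.mulVec_mulVec,
    Matrix.dotProduct_mulVec x, Matrix.vecMul_transpose]

lemma act_mul (g h : GL (Fin (n + 1)) ℝ) (x : Fin (n + 1) → ℝ) :
    act (g * h) x = act g (act h x) := by
  unfold act
  rw [Units.val_mul, Matrix.mulVec_mulVec]

lemma act_one (x : Fin (n + 1) → ℝ) : act (1 : GL (Fin (n + 1)) ℝ) x = x := by
  unfold act
  simp

lemma act_smul (g : GL (Fin (n + 1)) ℝ) (c : ℝ) (x : Fin (n + 1) → ℝ) :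
    act g (c • x) = c • act g x := by
  unfold act
  rw [Matrix.mulVec_smul]

lemma act_sub (g : GL (Fin (n + 1)) ℝ) (x y : Fin (n + 1) → ℝ) :
    act g (x - y) = act g x - act g y := by
  unfold act
  rw [Matrix.mulVec_sub]

lemma act_single (g : GL (Fin (n + 1)) ℝ) (j i : Fin (n + 1)) :
    act g (Pi.single j 1) i = (g : Matrix (Fin (n + 1)) (Fin (n + 1)) ℝ) i j := by
  unfold act
  simp

lemma pt_eq (g : GL (Fin (n + 1)) ℝ) : pt g = act g (Pi.single 0 1) := by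
  funext i
  rw [act_single]
  rfl

lemma pt_mul (g h : GL (Fin (n + 1)) ℝ) : pt (g * h) = act g (pt h) := by
  rw [pt_eq, pt_eq, act_mul]

lemma lor_single_zero (y : Fin (n + 1) → ℝ) : lor (Pi.single 0 1) y = -y 0 := by
  unfold lor
  simp [Fin.succ_ne_zero]

lemma lor_single_succ (j : Fin n) (y : Fin (n + 1) → ℝ) :
    lor (Pi.single j.succ 1) y = y j.succ := by
  unfold lor
  simp [Pi.single_apply, (Fin.succ_ne_zero j).symm]

lemma lor_pt_pt {g : GL (Fin (n + 1)) ℝ} (hg : IsLor g) (h : GL (Fin (n + 1)) ℝ) :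
    lor (pt g) (pt h) = -pt (g⁻¹ * h) 0 := by
  have h1 : pt h = act g (pt (g⁻¹ * h)) := by
    rw [← pt_mul, mul_inv_cancel_left]
  rw [h1]
  conv_lhs => rw [pt_eq g]
  rw [lor_act hg, lor_single_zero]

lemma pt_one_zero : pt (1 : GL (Fin (n + 1)) ℝ) 0 = 1 := by
  simp [pt]

lemma lor_pt_self {g : GL (Fin (n + 1)) ℝ} (hg : IsLor g) : lor (pt g) (pt g) = -1 := by
  rw [lor_pt_pt hg, inv_mul_cancel, pt_one_zero]

lemma pt_sq {g : GL (Fin (n + 1)) ℝ} (hg : IsLor g) :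
    pt g 0 ^ 2 = 1 + ∑ i : Fin n, pt g i.succ ^ 2 := by
  have h := lor_pt_self hg
  unfold lor at h
  simp only [sq]
  linarith

lemma one_le_pt {g : GL (Fin (n + 1)) ℝ} (hg : IsLor g) : 1 ≤ pt g 0 := by
  have h := pt_sq hg
  have h0 : 0 < pt g 0 := hg.2
  have h1 : 0 ≤ ∑ i : Fin n, pt g i.succ ^ 2 := Finset.sum_nonneg fun i _ => sq_nonneg _
  nlinarith

lemma abs_pt_le {g : GL (Fin (n + 1)) ℝ} (hg : IsLor g) (i : Fin (n + 1)) :
    |pt g i| ≤ pt g 0 := by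
  have h0 : 0 < pt g 0 := hg.2
  refine Fin.cases ?_ (fun j => ?_) i
  · rw [abs_of_pos h0]
  · have h := pt_sq hg
    have h1 : pt g j.succ ^ 2 ≤ ∑ i : Fin n, pt g i.succ ^ 2 :=
      Finset.single_le_sum (f := fun i : Fin n => pt g i.succ ^ 2)
        (fun i _ => sq_nonneg _) (Finset.mem_univ j)
    exact abs_le_of_sq_le_sq' (by linarith) h0.le |> abs_le.mpr

lemma pt_inv_zero {g : GL (Fin (n + 1)) ℝ} (hg : IsLor g) : pt g⁻¹ 0 = pt g 0 := by
  have h1 := lor_pt_pt hg 1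
  rw [mul_one, lor_comm, pt_eq 1, act_one, lor_single_zero] at h1
  linarith

lemma entry_le {g : GL (Fin (n + 1)) ℝ} (hg : IsLor g) (hg' : IsLor g⁻¹) (i j : Fin (n + 1)) :
    |(g : Matrix (Fin (n + 1)) (Fin (n + 1)) ℝ) i j| ≤ pt g 0 + 1 := by
  have h0 : 1 ≤ pt g 0 := one_le_pt hg
  refine Fin.cases ?_ (fun j => ?_) j
  · have := abs_pt_le hg i
    unfold pt at this ⊢
    linarith
  · set c : Fin (n + 1) → ℝ := act g (Pi.single j.succ 1) with hc
    have hc0 : |c 0| ≤ pt g 0 := by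
      have h1 : lor (Pi.single 0 1) c = lor (pt g⁻¹) (Pi.single j.succ 1) := by
        rw [← lor_act hg (pt g⁻¹), ← pt_mul, mul_inv_cancel, pt_eq 1, act_one]
      rw [lor_single_zero, lor_comm, lor_single_succ] at h1
      have h2 := abs_pt_le hg' j.succ
      rw [pt_inv_zero hg, ← h1, abs_neg] at h2
      exact h2
    have hcc : lor c c = 1 := by
      rw [hc, lor_act hg, lor_single_succ]
      simp
    rw [← act_single, ← hc]
    refine Fin.cases ?_ (fun i => ?_) i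
    · linarith
    · have h1 : c i.succ * c i.succ ≤ ∑ i : Fin n, c i.succ * c i.succ :=
        Finset.single_le_sum (f := fun i : Fin n => c i.succ * c i.succ)
          (fun i _ => mul_self_nonneg _) (Finset.mem_univ i)
      unfold lor at hcc
      have h2 : c 0 * c 0 ≤ pt g 0 * pt g 0 := by
        have := abs_le.mp hc0
        nlinarith
      refine abs_le.mpr (abs_le_of_sq_le_sq' (by nlinarith) (by linarith))

lemma isCompact_box (R : ℝ) :
    IsCompact {g : GL (Fin (n + 1)) ℝ | (∀ i j, |(g : Matrix (Fin (n + 1)) (Fin (n + 1)) ℝ) i j| ≤ R) ∧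
      ∀ i j, |((g⁻¹ : GL (Fin (n + 1)) ℝ) : Matrix (Fin (n + 1)) (Fin (n + 1)) ℝ) i j| ≤ R} := by
  have hK : IsCompact {A : Matrix (Fin (n + 1)) (Fin (n + 1)) ℝ | ∀ i j, |A i j| ≤ R} := by
    have : {A : Matrix (Fin (n + 1)) (Fin (n + 1)) ℝ | ∀ i j, |A i j| ≤ R}
        = Set.pi Set.univ (fun _ => Set.pi Set.univ (fun _ => Set.Icc (-R) R)) := by
      ext A
      exact ⟨fun h i _ j _ => abs_le.mp (h i j),
        fun h i j => abs_le.mpr (h i (Set.mem_univ _) j (Set.mem_univ _))⟩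
    rw [this]
    exact isCompact_univ_pi fun _ => isCompact_univ_pi fun _ => isCompact_Icc
  have h2 := (Units.isClosedEmbedding_embedProduct
    (α := Matrix (Fin (n + 1)) (Fin (n + 1)) ℝ)).isCompact_preimage
    (hK.prod (hK.image MulOpposite.continuous_op))
  convert h2 using 1
  ext g
  simp only [Set.mem_setOf_eq, Set.mem_preimage, Units.embedProduct_apply, Set.mem_prod,
    Set.mem_image]
  constructor
  · rintro ⟨h1, h2⟩
    exact ⟨h1, _, h2, rfl⟩
  · rintro ⟨h1, A, hA, h2⟩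
    refine ⟨h1, ?_⟩
    have : A = _ := MulOpposite.op_injective h2
    rw [← this]
    exact hA

lemma finite_ball (Γ : Subgroup (GL (Fin (n + 1)) ℝ)) (hO : ∀ g ∈ Γ, IsLor g)
    (hd : DiscreteTopology Γ) (R : ℝ) : {g : GL (Fin (n + 1)) ℝ | g ∈ Γ ∧ pt g 0 ≤ R}.Finite := by
  have ht := Γ.tendsto_coe_cofinite_of_discrete (isDiscrete_iff_discreteTopology.mpr hd)
  have h1 := ht (isCompact_box (n := n) (R + 1)).compl_mem_cocompact
  rw [Filter.mem_map, Filter.mem_cofinite] at h1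
  refine (h1.image (fun x : Γ => (x : GL (Fin (n + 1)) ℝ))).subset ?_
  rintro g ⟨hg, hR⟩
  refine ⟨⟨g, hg⟩, ?_, rfl⟩
  simp only [Set.mem_compl_iff, Set.mem_preimage, not_not, Set.mem_setOf_eq]
  have h2 := hO g hg
  have h3 := hO g⁻¹ (Γ.inv_mem hg)
  refine ⟨fun i j => (entry_le h2 h3 i j).trans (by linarith), fun i j => ?_⟩
  have := entry_le h3 (by rw [inv_inv]; exact h2) i j
  rw [pt_inv_zero h2] at this
  linarith

end Pool.Agent.Lib.MP_60b36a_gt
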