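import Pool.Agent.Lib.MP_60b36a_gt.Basic

namespace Pool.Agent.Lib.MP_60b36a_gt

open Matrix Finset

variable {k : ℕ}

lemma cell_alg (x0 x1 y0 y1 R : ℝ) (u v : Fin k → ℝ) (hR : 0 < R)
    (hx : x0 ^ 2 = 1 + (x1 ^ 2 + ∑ i, u i ^ 2)) (hy : y0 ^ 2 = 1 + (y1 ^ 2 + ∑ i, v i ^ 2))
    (hx1 : 0 ≤ x1) (hy1 : 0 ≤ y1) (hx2 : x1 ≤ x0) (hy2 : y1 ≤ y0)
    (hxR : R < x0) (hxR' : x0 ≤ 2 * R) (hyR : R < y0) (hyR' : y0 ≤ 2 * R)
    (huv : ∀ i, |R * (u i / (x0 + x1)) - R * (v i / (y0 + y1))| ≤ 1) :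
    x0 * y0 - (x1 * y1 + ∑ i, u i * v i) ≤ 4 + 8 * k := by
  set a := x0 + x1 with ha
  set b := y0 + y1 with hb
  have ha0 : R < a := by linarith
  have hb0 : R < b := by linarith
  have ha1 : a ≤ 4 * R := by linarith
  have hb1 : b ≤ 4 * R := by linarith
  have hap : 0 < a := by linarith
  have hbp : 0 < b := by linarith
  have key : ∀ i, (b * u i - a * v i) ^ 2 ≤ 16 * (a * b) := by
    intro i
    have h1 : b * u i - a * v i = (a * b / R) * (R * (u i / a) - R * (v i / b)) := by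
      field_simp
    have h2 : (R * (u i / a) - R * (v i / b)) ^ 2 ≤ 1 := by
      have := abs_le.mp (huv i)
      nlinarith
    have h3 : (a * b / R) ^ 2 ≤ 16 * (a * b) := by
      rw [div_pow, div_le_iff₀ (by positivity)]
      have : a * b ≤ 16 * R ^ 2 := by nlinarith
      have hab : 0 < a * b := by positivity
      nlinarith
    rw [h1, mul_pow]
    have h4 : 0 ≤ (a * b / R) ^ 2 := sq_nonneg _
    nlinarith
  have hs : ∑ i, (b * u i - a * v i) ^ 2 ≤ k * (16 * (a * b)) := by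
    calc ∑ i, (b * u i - a * v i) ^ 2 ≤ ∑ _i : Fin k, 16 * (a * b) :=
          Finset.sum_le_sum fun i _ => key i
      _ = k * (16 * (a * b)) := by simp
  have he : ∑ i, (b * u i - a * v i) ^ 2
      = b ^ 2 * ∑ i, u i ^ 2 + a ^ 2 * ∑ i, v i ^ 2 - 2 * (a * b) * ∑ i, u i * v i := by
    rw [Finset.mul_sum, Finset.mul_sum, Finset.mul_sum, ← Finset.sum_add_distrib,
      ← Finset.sum_sub_distrib]
    exact Finset.sum_congr rfl fun i _ => by ring
  have hU : ∑ i, u i ^ 2 = a * (x0 - x1) - 1 := by rw [ha]; nlinarith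
  have hV : ∑ i, v i ^ 2 = b * (y0 - y1) - 1 := by rw [hb]; nlinarith
  have hab : 0 < a * b := by positivity
  have h5 : 2 * (a * b) * (x0 * y0 - (x1 * y1 + ∑ i, u i * v i))
      = ∑ i, (b * u i - a * v i) ^ 2 + a ^ 2 + b ^ 2 := by
    rw [he, hU, hV, ha, hb]
    ring
  have h6 : a ^ 2 ≤ 4 * (a * b) := by nlinarith
  have h7 : b ^ 2 ≤ 4 * (a * b) := by nlinarith
  have h8 : 2 * (a * b) * (x0 * y0 - (x1 * y1 + ∑ i, u i * v i))
      ≤ 2 * (a * b) * (4 + 8 * k) := by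
    rw [h5]
    nlinarith
  exact le_of_mul_le_mul_left h8 (by positivity)

/-- The cell of an orbit point at scale `R`. -/
noncomputable def cell (R : ℕ) (g : GL (Fin (k + 2)) ℝ) : Bool × (Fin k → ℤ) :=
  (decide (0 ≤ pt g 1), fun i => ⌊(R : ℝ) * (pt g i.succ.succ / (pt g 0 + |pt g 1|))⌋)

lemma pt_sq' {g : GL (Fin (k + 2)) ℝ} (hg : IsLor g) :
    pt g 0 ^ 2 = 1 + (|pt g 1| ^ 2 + ∑ i : Fin k, pt g i.succ.succ ^ 2) := by
  rw [pt_sq hg, Fin.sum_univ_succ, sq_abs]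
  rfl

lemma cell_close {R : ℕ} (hR : 0 < R) {g h : GL (Fin (k + 2)) ℝ} (hg : IsLor g) (hh : IsLor h)
    (h1 : (R : ℝ) < pt g 0) (h2 : pt g 0 ≤ 2 * R) (h3 : (R : ℝ) < pt h 0) (h4 : pt h 0 ≤ 2 * R)
    (hc : cell R g = cell R h) : pt (g⁻¹ * h) 0 ≤ 4 + 8 * k := by
  have hs : pt g 1 * pt h 1 = |pt g 1| * |pt h 1| := by
    have := congrArg Prod.fst hc
    simp only [cell, decide_eq_decide] at this
    by_cases h0 : 0 ≤ pt g 1
    · rw [abs_of_nonneg h0, abs_of_nonneg (this.mp h0)]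
    · have h0' : ¬ 0 ≤ pt h 1 := fun h => h0 (this.mpr h)
      rw [abs_of_neg (not_le.mp h0), abs_of_neg (not_le.mp h0')]
      ring
  have := cell_alg (pt g 0) |pt g 1| (pt h 0) |pt h 1| R (fun i => pt g i.succ.succ)
    (fun i => pt h i.succ.succ) (by exact_mod_cast hR) (pt_sq' hg) (pt_sq' hh) (abs_nonneg _)
    (abs_nonneg _) (abs_pt_le hg 1) (abs_pt_le hh 1) h1 h2 h3 h4 (fun i => by
      have := congrFun (congrArg Prod.snd hc) i
      exact (Int.abs_sub_lt_one_of_floor_eq_floor this).le)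
  have h5 := lor_pt_pt hg h
  unfold lor at h5
  rw [Fin.sum_univ_succ] at h5
  have e1 : (Fin.succ (0 : Fin (k + 1)) : Fin (k + 2)) = 1 := rfl
  rw [e1, hs] at h5
  linarith

lemma cell_mem {R : ℕ} {g : GL (Fin (k + 2)) ℝ} (hg : IsLor g) :
    cell R g ∈ (Finset.univ : Finset Bool) ×ˢ
      Fintype.piFinset (fun _ : Fin k => Finset.Icc (-(R : ℤ)) R) := by
  simp only [cell, Finset.mem_product, Finset.mem_univ, true_and, Fintype.mem_piFinset,
    Finset.mem_Icc]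
  intro i
  have h0 := one_le_pt hg
  have h1 := abs_le.mp (abs_pt_le hg i.succ.succ)
  have h2 : 0 ≤ |pt g 1| := abs_nonneg _
  have h3 : -1 ≤ pt g i.succ.succ / (pt g 0 + |pt g 1|) := by
    rw [le_div_iff₀ (by linarith)]
    linarith
  have h4 : pt g i.succ.succ / (pt g 0 + |pt g 1|) ≤ 1 := by
    rw [div_le_iff₀ (by linarith)]
    linarith
  have hR : (0 : ℝ) ≤ R := Nat.cast_nonneg R
  constructor
  · rw [Int.le_floor]
    push_cast
    nlinarith
  · have : ⌊(R : ℝ) * (pt g i.succ.succ / (pt g 0 + |pt g 1|))⌋ ≤ ⌊((R : ℤ) : ℝ)⌋ := by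
      apply Int.floor_le_floor
      push_cast
      nlinarith
    rwa [Int.floor_intCast] at this

lemma shell_card (Γ : Subgroup (GL (Fin (k + 2)) ℝ)) (hO : ∀ g ∈ Γ, IsLor g)
    (hd : DiscreteTopology Γ) {R : ℕ} (hR : 0 < R) (Z : Finset (GL (Fin (k + 2)) ℝ))
    (hZ : ∀ g ∈ Z, g ∈ Γ ∧ (R : ℝ) < pt g 0 ∧ pt g 0 ≤ 2 * R) :
    Z.card ≤ (finite_ball Γ hO hd (4 + 8 * k)).toFinset.card * (2 * (2 * R + 1) ^ k) := by
  classical
  have h1 := Finset.card_le_mul_card_image_of_maps_to (f := cell R) (s := Z)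
    (t := (Finset.univ : Finset Bool) ×ˢ
      Fintype.piFinset (fun _ : Fin k => Finset.Icc (-(R : ℤ)) R))
    (fun g hg => cell_mem (hO g (hZ g hg).1))
    (finite_ball Γ hO hd (4 + 8 * k)).toFinset.card (by
      intro c _
      by_cases hne : (Z.filter (fun g => cell R g = c)).Nonempty
      · obtain ⟨g, hg⟩ := hne
        rw [Finset.mem_filter] at hg
        refine Finset.card_le_card_of_injOn (fun h => g⁻¹ * h) ?_ ?_
        · intro h hh
          rw [Finset.coe_filter] at hh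
          simp only [Finset.mem_coe, Set.Finite.mem_toFinset, Set.mem_ofPred_eq]
          have a1 := hZ g hg.1
          have a2 := hZ h hh.1
          exact ⟨Γ.mul_mem (Γ.inv_mem a1.1) a2.1, cell_close hR (hO g a1.1) (hO h a2.1)
            a1.2.1 a1.2.2 a2.2.1 a2.2.2 (hg.2.trans hh.2.symm)⟩
        · intro a _ b _ hab
          exact mul_left_cancel hab
      · rw [Finset.not_nonempty_iff_eq_empty.mp hne]
        simp)
  rw [Finset.card_product, Fintype.card_piFinset] at h1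
  simp only [Finset.card_univ, Fintype.card_bool, Int.card_Icc, Finset.prod_const,
    Fintype.card_fin] at h1
  have e : ((R : ℤ) + 1 - -(R : ℤ)).toNat = 2 * R + 1 := by omega
  rwa [e] at h1

lemma sum_inv_le (hk : 2 ≤ k) (Γ : Subgroup (GL (Fin (k + 2)) ℝ)) (hO : ∀ g ∈ Γ, IsLor g)
    (hd : DiscreteTopology Γ) : ∃ A : ℝ, 0 < A ∧ ∀ j : ℕ,
      ∑ g ∈ (finite_ball Γ hO hd (2 ^ j)).toFinset, 1 / pt g 0 ≤ A * (2 ^ j) ^ (k - 1) := by
  classical
  set m := (finite_ball Γ hO hd (4 + 8 * k)).toFinset.card with hm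
  refine ⟨m * (2 * 3 ^ k) + 1, by positivity, fun j => ?_⟩
  induction j with
  | zero =>
    have h1 : ∑ g ∈ (finite_ball Γ hO hd (2 ^ 0)).toFinset, 1 / pt g 0
        ≤ ∑ _g ∈ (finite_ball Γ hO hd (2 ^ 0)).toFinset, (1 : ℝ) := by
      refine Finset.sum_le_sum fun g hg => ?_
      simp only [Set.Finite.mem_toFinset, Set.mem_ofPred_eq] at hg
      have := one_le_pt (hO g hg.1)
      rw [div_le_iff₀ (by linarith)]
      linarith
    have h2 : (finite_ball Γ hO hd (2 ^ 0)).toFinset.card ≤ m := by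
      refine Finset.card_le_card fun g hg => ?_
      simp only [Set.Finite.mem_toFinset, Set.mem_ofPred_eq] at hg ⊢
      have : (0 : ℝ) ≤ k := Nat.cast_nonneg k
      exact ⟨hg.1, by linarith [hg.2]⟩
    have h3 : ((finite_ball Γ hO hd (2 ^ 0)).toFinset.card : ℝ) ≤ m := by exact_mod_cast h2
    simp only [Finset.sum_const, nsmul_eq_mul, mul_one] at h1
    have h4 : (1 : ℝ) ≤ 2 * 3 ^ k := by
      have : (1 : ℝ) ≤ 3 ^ k := one_le_pow₀ (by norm_num)
      linarith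
    have h5 : (0 : ℝ) ≤ m := Nat.cast_nonneg m
    simp only [pow_zero, one_pow, mul_one] at h1 h3 ⊢
    nlinarith
  | succ j ih =>
    set Z := (finite_ball Γ hO hd (2 ^ (j + 1))).toFinset with hZ
    rw [← Finset.sum_filter_add_sum_filter_not Z (fun g => pt g 0 ≤ 2 ^ j)]
    have e1 : Z.filter (fun g => pt g 0 ≤ 2 ^ j) = (finite_ball Γ hO hd (2 ^ j)).toFinset := by
      ext g
      simp only [hZ, Finset.mem_filter, Set.Finite.mem_toFinset, Set.mem_ofPred_eq]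
      constructor
      · rintro ⟨⟨h1, _⟩, h3⟩
        exact ⟨h1, h3⟩
      · rintro ⟨h1, h2⟩
        refine ⟨⟨h1, ?_⟩, h2⟩
        have : (0 : ℝ) < 2 ^ j := by positivity
        rw [pow_succ]
        linarith
    have h2 := shell_card Γ hO hd (R := 2 ^ j) (by positivity)
      (Z.filter (fun g => ¬ pt g 0 ≤ 2 ^ j)) (fun g hg => by
        simp only [hZ, Finset.mem_filter, Set.Finite.mem_toFinset, Set.mem_ofPred_eq] at hg
        refine ⟨hg.1.1, ?_, ?_⟩
        · push_cast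
          exact not_le.mp hg.2
        · push_cast
          have := hg.1.2
          rw [pow_succ] at this
          linarith)
    rw [← hm] at h2
    have h3 : ∑ g ∈ Z.filter (fun g => ¬ pt g 0 ≤ 2 ^ j), 1 / pt g 0
        ≤ ∑ _g ∈ Z.filter (fun g => ¬ pt g 0 ≤ 2 ^ j), (1 : ℝ) / 2 ^ j := by
      refine Finset.sum_le_sum fun g hg => ?_
      rw [Finset.mem_filter] at hg
      exact one_div_le_one_div_of_le (by positivity) (not_le.mp hg.2).le
    rw [Finset.sum_const, nsmul_eq_mul] at h3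
    have h4 : ((Z.filter (fun g => ¬ pt g 0 ≤ 2 ^ j)).card : ℝ)
        ≤ m * (2 * (2 * 2 ^ j + 1) ^ k) := by exact_mod_cast h2
    set r : ℝ := 2 ^ j with hr
    have hr1 : 1 ≤ r := one_le_pow₀ (by norm_num)
    have h5 : (2 * r + 1) ^ k ≤ 3 ^ k * (r ^ (k - 1) * r) := by
      rw [← pow_succ, Nat.sub_add_cancel (by omega), ← mul_pow]
      exact pow_le_pow_left₀ (by linarith) (by linarith) k
    have hm0 : (0 : ℝ) ≤ m := Nat.cast_nonneg m
    have h6 : ((Z.filter (fun g => ¬ pt g 0 ≤ r)).card : ℝ) * (1 / r)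
        ≤ m * (2 * 3 ^ k) * r ^ (k - 1) := by
      rw [mul_one_div, div_le_iff₀ (by linarith)]
      calc _ ≤ m * (2 * (2 * r + 1) ^ k) := h4
        _ ≤ m * (2 * (3 ^ k * (r ^ (k - 1) * r))) := by gcongr
        _ = _ := by ring
    have h7 : (2 : ℝ) * r ^ (k - 1) ≤ (2 ^ (j + 1)) ^ (k - 1) := by
      rw [pow_succ, ← hr, mul_pow]
      have : (2 : ℝ) ≤ 2 ^ (k - 1) := by
        calc (2 : ℝ) = 2 ^ 1 := by norm_num
          _ ≤ 2 ^ (k - 1) := pow_le_pow_right₀ (by norm_num) (by omega)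
      have h8 : 0 ≤ r ^ (k - 1) := by positivity
      nlinarith
    rw [e1]
    have h9 : (0 : ℝ) ≤ m * (2 * 3 ^ k) := by positivity
    have h10 : 0 ≤ r ^ (k - 1) := by positivity
    nlinarith

end Pool.Agent.Lib.MP_60b36a_gt
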