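import Pool.Agent.Lib.MP_60b36a_gt.NoFix

namespace Pool.Agent.Lib.MP_60b36a_gt

open Matrix Finset

section Klein

variable {n : ℕ}

/-- Klein model coordinates of the orbit point. -/
noncomputable def klein (g : GL (Fin (n + 1)) ℝ) : Fin (n + 1) → ℝ := (pt g 0)⁻¹ • pt g

lemma klein_edge {g h : GL (Fin (n + 1)) ℝ} (hg : IsLor g) (hh : IsLor h) (hgh : IsLor (g⁻¹ * h))
    {K : ℝ} (hK : pt (g⁻¹ * h) 0 ≤ K) (i : Fin (n + 1)) :
    |klein g i - klein h i| ≤ K / pt g 0 + K / pt h 0 := by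
  have h1 := one_le_pt hg
  have h2 := one_le_pt hh
  have h3 := one_le_pt hgh
  have hK0 : 1 ≤ K := h3.trans hK
  have hpos : 0 ≤ K / pt g 0 + K / pt h 0 := by positivity
  refine Fin.cases ?_ (fun j => ?_) i
  · simp only [klein, Pi.smul_apply, smul_eq_mul]
    rw [inv_mul_cancel₀ (by linarith), inv_mul_cancel₀ (by linarith)]
    simpa using hpos
  · set a := (pt g 0)⁻¹ with ha
    set b := (pt h 0)⁻¹ with hb
    have ha0 : 0 < a := by positivity
    have hb0 : 0 < b := by positivity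
    have ha1 : a * pt g 0 = 1 := inv_mul_cancel₀ (by linarith)
    have hb1 : b * pt h 0 = 1 := inv_mul_cancel₀ (by linarith)
    have e1 : ∑ i : Fin n, (a * pt g i.succ - b * pt h i.succ) ^ 2
        = a ^ 2 * ∑ i : Fin n, pt g i.succ ^ 2 + b ^ 2 * ∑ i : Fin n, pt h i.succ ^ 2
          - 2 * (a * b) * ∑ i : Fin n, pt g i.succ * pt h i.succ := by
      rw [Finset.mul_sum, Finset.mul_sum, Finset.mul_sum, ← Finset.sum_add_distrib,
        ← Finset.sum_sub_distrib]
      exact Finset.sum_congr rfl fun i _ => by ring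
    have e2 := pt_sq hg
    have e3 := pt_sq hh
    have e4 := lor_pt_pt hg h
    unfold lor at e4
    have e5 : ∑ i : Fin n, (a * pt g i.succ - b * pt h i.succ) ^ 2
        = 2 * (a * b) * pt (g⁻¹ * h) 0 - a ^ 2 - b ^ 2 := by
      rw [e1, show ∑ i : Fin n, pt g i.succ ^ 2 = pt g 0 ^ 2 - 1 by linarith,
        show ∑ i : Fin n, pt h i.succ ^ 2 = pt h 0 ^ 2 - 1 by linarith,
        show ∑ i : Fin n, pt g i.succ * pt h i.succ = pt g 0 * pt h 0 - pt (g⁻¹ * h) 0 by
          linarith]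
      have f1 : a ^ 2 * pt g 0 ^ 2 = 1 := by rw [← mul_pow, ha1]; norm_num
      have f2 : b ^ 2 * pt h 0 ^ 2 = 1 := by rw [← mul_pow, hb1]; norm_num
      have f3 : a * b * (pt g 0 * pt h 0) = 1 := by
        rw [show a * b * (pt g 0 * pt h 0) = (a * pt g 0) * (b * pt h 0) by ring, ha1, hb1]
        norm_num
      nlinarith
    have e6 : (a * pt g j.succ - b * pt h j.succ) ^ 2
        ≤ ∑ i : Fin n, (a * pt g i.succ - b * pt h i.succ) ^ 2 :=
      Finset.single_le_sum (f := fun i : Fin n => (a * pt g i.succ - b * pt h i.succ) ^ 2)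
        (fun i _ => sq_nonneg _) (Finset.mem_univ j)
    have hab : 0 < a * b := by positivity
    have e7 : 2 * (a * b) * pt (g⁻¹ * h) 0 ≤ (K * a + K * b) ^ 2 := by
      have g1 : 2 * (a * b) * pt (g⁻¹ * h) 0 ≤ 2 * (a * b) * K := by gcongr
      have g2 : K ≤ K ^ 2 := by nlinarith
      have g3 : 2 * (a * b) * K ≤ 2 * (a * b) * K ^ 2 := by gcongr
      nlinarith [sq_nonneg (K * a), sq_nonneg (K * b)]
    simp only [klein, Pi.smul_apply, smul_eq_mul]
    rw [div_eq_mul_inv, div_eq_mul_inv, ← ha, ← hb]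
    refine abs_le.mpr (abs_le_of_sq_le_sq' ?_ (by positivity))
    nlinarith [sq_nonneg a, sq_nonneg b]

lemma isCompact_ball :
    IsCompact {w : Fin (n + 1) → ℝ | w 0 = 1 ∧ lor w w ≤ 0} := by
  refine Metric.isCompact_of_isClosed_isBounded ?_ ?_
  · have h1 : Continuous (fun w : Fin (n + 1) → ℝ => lor w w) := by
      unfold lor
      fun_prop
    exact (isClosed_eq (continuous_apply 0) continuous_const).inter
      (isClosed_le h1 continuous_const)
  · refine (Metric.isBounded_closedBall (x := 0) (r := 1)).subset ?_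
    rintro w ⟨h0, h1⟩
    rw [mem_closedBall_zero_iff, pi_norm_le_iff_of_nonneg (by norm_num)]
    intro i
    rw [Real.norm_eq_abs]
    refine Fin.cases ?_ (fun j => ?_) i
    · rw [h0]; norm_num
    · unfold lor at h1
      rw [h0] at h1
      have h2 : w j.succ * w j.succ ≤ ∑ i : Fin n, w i.succ * w i.succ :=
        Finset.single_le_sum (f := fun i : Fin n => w i.succ * w i.succ)
          (fun i _ => mul_self_nonneg _) (Finset.mem_univ j)
      exact abs_le.mpr (abs_le_of_sq_le_sq' (by nlinarith) (by norm_num))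

lemma klein_mem {g : GL (Fin (n + 1)) ℝ} (hg : IsLor g) :
    klein g 0 = 1 ∧ lor (klein g) (klein g) ≤ 0 := by
  have h1 := one_le_pt hg
  constructor
  · simp only [klein, Pi.smul_apply, smul_eq_mul]
    exact inv_mul_cancel₀ (by linarith)
  · have := lor_comb 0 (pt g) 0 (pt g) (pt g 0)⁻¹ (pt g 0)⁻¹
    simp only [zero_add] at this
    unfold klein
    rw [this, lor_pt_self hg]
    simp only [lor_eq, zero_dotProduct, Matrix.mulVec_zero, dotProduct_zero]
    nlinarith [mul_self_nonneg (pt g 0)⁻¹]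

lemma exists_gap (Γ : Subgroup (GL (Fin (n + 1)) ℝ)) (hO : ∀ g ∈ Γ, IsLor g)
    (S : Finset (GL (Fin (n + 1)) ℝ)) (hS : ∀ s ∈ S, s ∈ Γ)
    (hno : ∀ ξ : Fin (n + 1) → ℝ, ξ 0 = 1 → lor ξ ξ ≤ 0 → ¬ ∀ s ∈ S, ∃ c : ℝ, act s ξ = c • ξ) :
    ∃ c : ℝ, 0 < c ∧ ∀ g ∈ Γ, ∃ s ∈ S, ∃ i, c ≤ |klein (s * g) i - klein g i| := by
  set f : (Fin (n + 1) → ℝ) → ℝ :=
    fun w => ∑ s ∈ S, ‖act s w - (act s w 0) • w‖ / (1 + |act s w 0|) with hf
  have hcont : Continuous f := by
    refine continuous_finsetSum _ fun s _ => ?_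
    have hc : Continuous (act s) := by
      unfold act
      fun_prop
    refine Continuous.div (by fun_prop) (by fun_prop) fun w => by positivity
  obtain ⟨w0, hw0, hmin⟩ := (isCompact_ball (n := n)).exists_isMinOn
    ⟨klein 1, klein_mem (hO 1 Γ.one_mem)⟩ hcont.continuousOn
  have hpos : 0 < f w0 := by
    by_contra hcon
    apply hno w0 hw0.1 hw0.2
    intro s hs
    have h1 : ‖act s w0 - (act s w0 0) • w0‖ / (1 + |act s w0 0|) ≤ f w0 :=
      Finset.single_le_sum (f := fun s => ‖act s w0 - (act s w0 0) • w0‖ / (1 + |act s w0 0|))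
        (fun s _ => by positivity) hs
    have h2 : ‖act s w0 - (act s w0 0) • w0‖ / (1 + |act s w0 0|) ≤ 0 := h1.trans (not_lt.mp hcon)
    rw [div_le_iff₀ (by positivity), zero_mul, norm_le_zero_iff, sub_eq_zero] at h2
    exact ⟨_, h2⟩
  refine ⟨f w0 / (S.card + 1), by positivity, fun g hg => ?_⟩
  by_contra hcon
  push Not at hcon
  have h1 : f w0 ≤ f (klein g) := hmin (klein_mem (hO g hg))
  have h2 : f (klein g) ≤ ∑ _s ∈ S, f w0 / (S.card + 1) := by
    refine Finset.sum_le_sum fun s hs => ?_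
    have a1 := one_le_pt (hO g hg)
    have a2 := one_le_pt (hO _ (Γ.mul_mem (hS s hs) hg))
    have e1 : act s (klein g) = (pt g 0)⁻¹ • pt (s * g) := by
      rw [klein, act_smul, pt_mul]
    have e2 : act s (klein g) - (act s (klein g) 0) • klein g
        = (act s (klein g) 0) • (klein (s * g) - klein g) := by
      rw [smul_sub, e1]
      congr 1
      simp only [klein, Pi.smul_apply, smul_eq_mul, smul_smul]
      congr 1
      field_simp
    have e3 : ‖klein (s * g) - klein g‖ ≤ f w0 / (S.card + 1) := by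
      rw [pi_norm_le_iff_of_nonneg (by positivity)]
      intro i
      exact (hcon s hs i).le
    rw [e2, norm_smul, Real.norm_eq_abs, div_le_iff₀ (by positivity)]
    have e4 : 0 ≤ |act s (klein g) 0| := abs_nonneg _
    have e5 : 0 ≤ f w0 / (S.card + 1) := by positivity
    nlinarith
  rw [Finset.sum_const, nsmul_eq_mul] at h2
  have h3 : (S.card : ℝ) * (f w0 / (S.card + 1)) < f w0 := by
    rw [← mul_div_assoc, div_lt_iff₀ (by positivity)]
    nlinarith
  linarith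

end Klein

lemma path_cover {G : Type*} [Group G] [DecidableEq G] (f ρ : G → ℝ) (P Q : G → Prop)
    (hρ : ∀ v, P v → 0 ≤ ρ v) (hP : ∀ v x, P v → Q x → P (v * x))
    (hf : ∀ v x, P v → Q x → |f v - f (v * x)| ≤ ρ v + ρ (v * x)) (l : List G)
    (hl : ∀ x ∈ l, Q x) : ∀ g, P g → ∃ V : Finset G, V.card ≤ l.length + 1 ∧ (∀ v ∈ V, P v) ∧
      g ∈ V ∧ Set.uIcc (f g) (f (g * l.prod)) ⊆ ⋃ v ∈ V, Set.Icc (f v - ρ v) (f v + ρ v) := by
  induction l with
  | nil =>
    intro g hg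
    refine ⟨{g}, by simp, by simpa using hg, by simp, ?_⟩
    have := hρ g hg
    simp only [List.prod_nil, mul_one, Set.uIcc_self, Finset.mem_singleton,
      Set.iUnion_iUnion_eq_left, Set.singleton_subset_iff, Set.mem_Icc]
    constructor <;> linarith
  | cons x l ih =>
    intro g hg
    have hx := hl x List.mem_cons_self
    obtain ⟨V, h1, h2, h3, h4⟩ := ih (fun y hy => hl y (List.mem_cons_of_mem _ hy)) (g * x)
      (hP g x hg hx)
    refine ⟨insert g V, (Finset.card_insert_le _ _).trans (by simpa using h1), ?_,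
      Finset.mem_insert_self _ _, ?_⟩
    · intro v hv
      rcases Finset.mem_insert.mp hv with rfl | hv
      · exact hg
      · exact h2 v hv
    · rw [List.prod_cons, ← mul_assoc]
      refine (Set.uIcc_subset_uIcc_union_uIcc (b := f (g * x))).trans (Set.union_subset ?_ ?_)
      · intro y hy
        have a1 := abs_le.mp (hf g x hg hx)
        have a2 := hρ g hg
        have a3 := hρ _ (hP g x hg hx)
        simp only [Set.mem_iUnion, Set.mem_Icc]
        by_cases hy1 : f g - ρ g ≤ y ∧ y ≤ f g + ρ g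
        · exact ⟨g, Finset.mem_insert_self _ _, hy1⟩
        · refine ⟨g * x, Finset.mem_insert_of_mem h3, ?_⟩
          rw [not_and_or, not_le, not_le] at hy1
          rcases Set.mem_uIcc.mp hy with h | h <;> rcases hy1 with h' | h' <;>
            constructor <;> linarith [h.1, h.2]
      · refine h4.trans ?_
        intro y hy
        simp only [Set.mem_iUnion] at hy ⊢
        obtain ⟨v, hv, hy⟩ := hy
        exact ⟨v, Finset.mem_insert_of_mem hv, hy⟩

lemma path_sum {G : Type*} [Group G] [DecidableEq G] (f ρ : G → ℝ) (P Q : G → Prop)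
    (hρ : ∀ v, P v → 0 ≤ ρ v) (hP : ∀ v x, P v → Q x → P (v * x))
    (hf : ∀ v x, P v → Q x → |f v - f (v * x)| ≤ ρ v + ρ (v * x)) (l : List G)
    (hl : ∀ x ∈ l, Q x) (g : G) (hg : P g) : ∃ V : Finset G, V.card ≤ l.length + 1 ∧
      (∀ v ∈ V, P v) ∧ |f (g * l.prod) - f g| ≤ ∑ v ∈ V, 2 * ρ v := by
  obtain ⟨V, h1, h2, _, h4⟩ := path_cover f ρ P Q hρ hP hf l hl g hg
  refine ⟨V, h1, h2, ?_⟩
  have h5 := (MeasureTheory.measure_mono (μ := MeasureTheory.volume) h4).trans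
    (MeasureTheory.measure_biUnion_finset_le V _)
  rw [Real.volume_interval] at h5
  simp only [Real.volume_Icc] at h5
  rw [← ENNReal.ofReal_sum_of_nonneg (fun v hv => by linarith [hρ v (h2 v hv)]),
    ENNReal.ofReal_le_ofReal_iff (Finset.sum_nonneg fun v hv => by
      linarith [hρ v (h2 v hv)])] at h5
  refine h5.trans (le_of_eq (Finset.sum_congr rfl fun v _ => by ring))

variable {k : ℕ}

theorem main (hk : 2 ≤ k) (Γ N : Subgroup (GL (Fin (k + 2)) ℝ)) (hO : ∀ g ∈ Γ, IsLor g)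
    (hd : DiscreteTopology Γ) (hN : N ≤ Γ) (S : Finset (GL (Fin (k + 2)) ℝ))
    (hS : Subgroup.closure (S : Set (GL (Fin (k + 2)) ℝ)) = N)
    (φ : FreeGroup (Fin 2) →* GL (Fin (k + 2)) ℝ) (hφ : Function.Injective φ)
    (hr : φ.range ≤ N) :
    ∃ C : ℝ, ∀ T : ℕ, 1 ≤ T → ∀ A : Set (GL (Fin (k + 2)) ℝ),
      (∀ g ∈ A, g ∈ Γ ∧ ∀ s ∈ S, ∃ l : List (GL (Fin (k + 2)) ℝ), l.length ≤ T ∧
        (∀ x ∈ l, x ∈ S ∨ x⁻¹ ∈ S) ∧ l.prod = g⁻¹ * s * g) →
      (∀ g ∈ A, ∃ x ∈ N, pt (g * x) 0 ≤ C * T) ∧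
      ((fun g => (QuotientGroup.mk g : GL (Fin (k + 2)) ℝ ⧸ N)) '' A).Finite ∧
      (((fun g => (QuotientGroup.mk g : GL (Fin (k + 2)) ℝ ⧸ N)) '' A).ncard : ℝ)
        ≤ C * (T : ℝ) ^ (k - 1) := by
  classical
  have hSN : ∀ s ∈ S, s ∈ N := fun s hs => hS ▸ Subgroup.subset_closure hs
  obtain ⟨c, hc0, hc⟩ := exists_gap Γ hO S (fun s hs => hN (hSN s hs)) (fun ξ h0 hξ =>
    no_fix hk Γ hO hd S (hS ▸ hN) φ hφ (hS ▸ hr) h0 hξ)
  obtain ⟨B, hB0, hB⟩ := sum_inv_le hk Γ hO hd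
  set K : ℝ := 1 + ∑ s ∈ S, pt s 0 with hK
  have hK1 : 1 ≤ K := by
    have : 0 ≤ ∑ s ∈ S, pt s 0 :=
      Finset.sum_nonneg fun s hs => by linarith [one_le_pt (hO s (hN (hSN s hs)))]
    linarith
  have hKs : ∀ x, (x ∈ S ∨ x⁻¹ ∈ S) → x ∈ N ∧ pt x 0 ≤ K := by
    have aux : ∀ s ∈ S, pt s 0 ≤ K := fun s hs => by
      have : pt s 0 ≤ ∑ s ∈ S, pt s 0 := Finset.single_le_sum (f := fun s => pt s 0)
        (fun s hs => by linarith [one_le_pt (hO s (hN (hSN s hs)))]) hs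
      linarith
    rintro x (hx | hx)
    · exact ⟨hSN x hx, aux x hx⟩
    · have h1 : x ∈ N := by simpa using N.inv_mem (hSN _ hx)
      exact ⟨h1, by rw [← pt_inv_zero (hO x (hN h1))]; exact aux _ hx⟩
  set M : ℝ := 8 * K / c + 1 with hM
  have hM1 : 1 ≤ M := by
    have : 0 ≤ 8 * K / c := by positivity
    linarith
  refine ⟨2 * M + 4 * K / c * B * (2 * M) ^ (k - 1), fun T hT A hA => ?_⟩
  have hT1 : (1 : ℝ) ≤ T := by exact_mod_cast hT
  obtain ⟨j, hj1, hj2⟩ := exists_nat_pow_near (x := M * T) (y := 2) (by nlinarith) (by norm_num)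
  set Z := (finite_ball Γ hO hd (2 ^ (j + 1))).toFinset with hZ
  have hZm : ∀ v, v ∈ Z ↔ v ∈ Γ ∧ pt v 0 ≤ 2 ^ (j + 1) := fun v => by
    simp only [hZ, Set.Finite.mem_toFinset, Set.mem_ofPred_eq]
  have key : ∀ g ∈ A, c / (4 * K) ≤ ∑ v ∈ Z.filter (fun v =>
      (QuotientGroup.mk v : GL (Fin (k + 2)) ℝ ⧸ N) = QuotientGroup.mk g), 1 / pt v 0 := by
    intro g hg
    obtain ⟨hgΓ, hg2⟩ := hA g hg
    obtain ⟨s, hs, i, hi⟩ := hc g hgΓ
    obtain ⟨l, hl1, hl2, hl3⟩ := hg2 s hs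
    obtain ⟨V, v1, v2, v3⟩ := path_sum (fun v => klein v i) (fun v => K / pt v 0)
      (fun v => v ∈ Γ ∧ (QuotientGroup.mk v : GL (Fin (k + 2)) ℝ ⧸ N) = QuotientGroup.mk g)
      (fun x => x ∈ S ∨ x⁻¹ ∈ S)
      (fun v hv => by have := one_le_pt (hO v hv.1); positivity)
      (fun v x hv hx => ⟨Γ.mul_mem hv.1 (hN (hKs x hx).1), by
        rw [← hv.2]; exact QuotientGroup.mk_mul_of_mem v (hKs x hx).1⟩)
      (fun v x hv hx => klein_edge (hO v hv.1) (hO _ (Γ.mul_mem hv.1 (hN (hKs x hx).1)))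
        (by rw [inv_mul_cancel_left]; exact hO x (hN (hKs x hx).1))
        (by rw [inv_mul_cancel_left]; exact (hKs x hx).2) i) l hl2 g ⟨hgΓ, rfl⟩
    rw [hl3, show g * (g⁻¹ * s * g) = s * g by group] at v3
    rw [← Finset.sum_filter_add_sum_filter_not V (fun v => pt v 0 ≤ 2 ^ (j + 1))] at v3
    have w1 : ∑ v ∈ V.filter (fun v => ¬ pt v 0 ≤ 2 ^ (j + 1)), 2 * (K / pt v 0)
        ≤ c / 2 := by
      have a1 : ∑ v ∈ V.filter (fun v => ¬ pt v 0 ≤ 2 ^ (j + 1)), 2 * (K / pt v 0)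
          ≤ (V.filter (fun v => ¬ pt v 0 ≤ 2 ^ (j + 1))).card • (2 * (K / (M * T))) := by
        refine Finset.sum_le_card_nsmul _ _ _ fun v hv => ?_
        rw [Finset.mem_filter, not_le] at hv
        have : K / pt v 0 ≤ K / (M * T) :=
          div_le_div_of_nonneg_left (by linarith) (by positivity) (by linarith [hv.2])
        linarith
      have a2 : ((V.filter (fun v => ¬ pt v 0 ≤ 2 ^ (j + 1))).card : ℝ) ≤ 2 * T := by
        have : (V.filter (fun v => ¬ pt v 0 ≤ 2 ^ (j + 1))).card ≤ 2 * T :=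
          (Finset.card_filter_le _ _).trans (by omega)
        exact_mod_cast this
      rw [nsmul_eq_mul] at a1
      have a3 : 2 * (T : ℝ) * (2 * (K / (M * T))) ≤ c / 2 := by
        rw [show 2 * (T : ℝ) * (2 * (K / (M * T))) = 4 * K / M by field_simp; ring,
          div_le_iff₀ (by positivity), hM]
        have : c / 2 * (8 * K / c + 1) = 4 * K + c / 2 := by field_simp; ring
        rw [this]
        linarith
      have a4 : 0 ≤ 2 * (K / (M * T)) := by positivity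
      nlinarith
    have w2 : ∑ v ∈ V.filter (fun v => pt v 0 ≤ 2 ^ (j + 1)), 2 * (K / pt v 0)
        ≤ 2 * K * ∑ v ∈ Z.filter (fun v =>
          (QuotientGroup.mk v : GL (Fin (k + 2)) ℝ ⧸ N) = QuotientGroup.mk g), 1 / pt v 0 := by
      rw [Finset.mul_sum]
      refine (le_of_eq (Finset.sum_congr rfl fun v _ => by ring)).trans
        (Finset.sum_le_sum_of_subset_of_nonneg ?_ ?_)
      · intro v hv
        rw [Finset.mem_filter] at hv ⊢
        exact ⟨(hZm v).mpr ⟨(v2 v hv.1).1, hv.2⟩, (v2 v hv.1).2⟩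
      · intro v hv _
        rw [Finset.mem_filter] at hv
        have := one_le_pt (hO v ((hZm v).mp hv.1).1)
        positivity
    rw [div_le_iff₀ (by positivity)]
    linarith
  have hex : ∀ g ∈ A, ∃ v ∈ Z,
      (QuotientGroup.mk v : GL (Fin (k + 2)) ℝ ⧸ N) = QuotientGroup.mk g := by
    intro g hg
    by_contra hcon
    push Not at hcon
    have := key g hg
    rw [Finset.filter_eq_empty_iff.mpr hcon, Finset.sum_empty] at this
    have h2 : 0 < c / (4 * K) := by positivity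
    linarith
  have hfin : ((fun g => (QuotientGroup.mk g : GL (Fin (k + 2)) ℝ ⧸ N)) '' A).Finite := by
    refine (Z.finite_toSet.image (fun g => (QuotientGroup.mk g : GL (Fin (k + 2)) ℝ ⧸ N))).subset ?_
    rintro _ ⟨g, hg, rfl⟩
    obtain ⟨v, hv, e⟩ := hex g hg
    exact ⟨v, hv, e⟩
  have hj3 : (2 : ℝ) ^ (j + 1) ≤ 2 * M * T := by
    rw [pow_succ]
    linarith
  have hC0 : 0 ≤ 4 * K / c * B * (2 * M) ^ (k - 1) := by positivity
  refine ⟨fun g hg => ?_, hfin, ?_⟩
  · obtain ⟨v, hv, e⟩ := hex g hg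
    refine ⟨g⁻¹ * v, QuotientGroup.eq.mp e.symm, ?_⟩
    rw [mul_inv_cancel_left]
    have := ((hZm v).mp hv).2
    nlinarith
  · rw [Set.ncard_eq_toFinset_card _ hfin]
    have h1 : hfin.toFinset.card • (c / (4 * K)) ≤ ∑ q ∈ hfin.toFinset, ∑ v ∈ Z.filter (fun v =>
        (QuotientGroup.mk v : GL (Fin (k + 2)) ℝ ⧸ N) = q), 1 / pt v 0 := by
      refine Finset.card_nsmul_le_sum _ _ _ fun q hq => ?_
      rw [Set.Finite.mem_toFinset] at hq
      obtain ⟨g, hg, rfl⟩ := hq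
      exact key g hg
    have h2 : ∑ q ∈ hfin.toFinset, ∑ v ∈ Z.filter (fun v =>
        (QuotientGroup.mk v : GL (Fin (k + 2)) ℝ ⧸ N) = q), 1 / pt v 0
        ≤ ∑ v ∈ Z, 1 / pt v 0 := by
      rw [Finset.sum_fiberwise_eq_sum_filter]
      refine Finset.sum_le_sum_of_subset_of_nonneg (Finset.filter_subset _ _) fun v hv _ => ?_
      have := one_le_pt (hO v ((hZm v).mp hv).1)
      positivity
    have h3 := (h1.trans h2).trans (hB (j + 1))
    rw [nsmul_eq_mul, ← le_div_iff₀ (by positivity)] at h3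
    have h4 : ((2 : ℝ) ^ (j + 1)) ^ (k - 1) ≤ (2 * M) ^ (k - 1) * (T : ℝ) ^ (k - 1) := by
      rw [← mul_pow]
      exact pow_le_pow_left₀ (by positivity) hj3 _
    have h5 : B * ((2 : ℝ) ^ (j + 1)) ^ (k - 1) / (c / (4 * K))
        ≤ 4 * K / c * B * (2 * M) ^ (k - 1) * (T : ℝ) ^ (k - 1) := by
      rw [show B * ((2 : ℝ) ^ (j + 1)) ^ (k - 1) / (c / (4 * K))
        = 4 * K / c * B * ((2 : ℝ) ^ (j + 1)) ^ (k - 1) by field_simp, mul_assoc (4 * K / c * B)]
      gcongr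
    have h6 : 0 ≤ 2 * M * (T : ℝ) ^ (k - 1) := by positivity
    nlinarith

end Pool.Agent.Lib.MP_60b36a_gt
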