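import Pool.Agent.Lib.MP_60b36a_gt.Count

namespace Pool.Agent.Lib.MP_60b36a_gt

open Matrix Finset

section Growth

variable {n : ℕ}

lemma lor_comb (x y z w : Fin (n + 1) → ℝ) (a b : ℝ) :
    lor (x + a • y) (z + b • w) = lor x z + b * lor x w + a * lor y z + a * b * lor y w := by
  simp only [lor_eq, Matrix.mulVec_add, Matrix.mulVec_smul, add_dotProduct, dotProduct_add,
    smul_dotProduct, dotProduct_smul, smul_eq_mul]
  ring

lemma lor_sub_left (x y z : Fin (n + 1) → ℝ) : lor (x - y) z = lor x z - lor y z := by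
  simp only [lor_eq, sub_dotProduct]

lemma lor_add_smul_left (x y z : Fin (n + 1) → ℝ) (a : ℝ) :
    lor (x + a • y) z = lor x z + a * lor y z := by
  simp only [lor_eq, add_dotProduct, smul_dotProduct, smul_eq_mul]

lemma lor_psd {ξ z : Fin (n + 1) → ℝ} (h0 : ξ 0 = 1) (hξ : lor ξ ξ ≤ 0) (hz : lor z ξ = 0) :
    0 ≤ lor z z := by
  unfold lor at *
  rw [h0] at hξ hz
  have h1 := Finset.sum_mul_sq_le_sq_mul_sq Finset.univ (fun i : Fin n => z i.succ)
    (fun i : Fin n => ξ i.succ)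
  simp only [sq] at h1
  have h2 : z 0 = ∑ i : Fin n, z i.succ * ξ i.succ := by linarith
  have h3 : 0 ≤ ∑ i : Fin n, z i.succ * z i.succ :=
    Finset.sum_nonneg fun i _ => mul_self_nonneg _
  rw [← h2] at h1
  nlinarith

lemma lor_disp {g : GL (Fin (n + 1)) ℝ} (hg : IsLor g) :
    lor (pt g - Pi.single 0 1) (pt g - Pi.single 0 1) = 2 * (pt g 0 - 1) := by
  have e : pt g - Pi.single 0 1 = pt g + (-1 : ℝ) • (Pi.single 0 1 : Fin (n + 1) → ℝ) := by
    rw [neg_one_smul, sub_eq_add_neg]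
  rw [e, lor_comb, lor_pt_self hg, lor_comm (pt g), lor_single_zero, lor_single_zero]
  simp
  ring

lemma lor_disp_xi {g : GL (Fin (n + 1)) ℝ} (hg : IsLor g) {ξ : Fin (n + 1) → ℝ}
    (h : act g ξ = ξ) : lor (pt g - Pi.single 0 1) ξ = 0 := by
  rw [lor_sub_left]
  conv_lhs => rw [pt_eq g]; lhs; rw [← h]
  rw [lor_act hg, sub_self]

lemma horo_growth (Γ : Subgroup (GL (Fin (n + 1)) ℝ)) (hO : ∀ g ∈ Γ, IsLor g)
    {ξ : Fin (n + 1) → ℝ} (h0 : ξ 0 = 1) (hξ : lor ξ ξ ≤ 0) (E : ℝ)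
    (l : List (GL (Fin (n + 1)) ℝ)) (hl : ∀ c ∈ l, c ∈ Γ ∧ act c ξ = ξ ∧ pt c 0 - 1 ≤ E) :
    l.prod ∈ Γ ∧ act l.prod ξ = ξ ∧ pt l.prod 0 - 1 ≤ (l.length : ℝ) ^ 2 * E := by
  induction l with
  | nil => simp [Γ.one_mem, act_one, pt_one_zero]
  | cons c l ih =>
    obtain ⟨i1, i2, i3⟩ := ih fun x hx => hl x (List.mem_cons_of_mem _ hx)
    obtain ⟨c1, c2, c3⟩ := hl c List.mem_cons_self
    rw [List.prod_cons]
    refine ⟨Γ.mul_mem c1 i1, by rw [act_mul, i2, c2], ?_⟩
    rcases Nat.eq_zero_or_pos l.length with hr | hr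
    · rw [List.length_eq_zero_iff.mp hr]
      simpa using c3
    set z := act c (pt l.prod - Pi.single 0 1) with hz
    set w := pt c - Pi.single 0 1 with hw
    have hc := hO c c1
    have e1 : pt (c * l.prod) - Pi.single 0 1 = z + (1 : ℝ) • w := by
      rw [hz, hw, act_sub, ← pt_eq c, ← pt_mul, one_smul]
      abel
    have hzz : lor z z = 2 * (pt l.prod 0 - 1) := by
      rw [hz, lor_act hc, lor_disp (hO _ i1)]
    have hww : lor w w = 2 * (pt c 0 - 1) := lor_disp hc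
    have hzx : lor z ξ = 0 := by
      rw [hz]
      conv_lhs => rw [← c2]
      rw [lor_act hc, lor_disp_xi (hO _ i1) i2]
    have hwx : lor w ξ = 0 := lor_disp_xi hc c2
    set r : ℝ := (l.length : ℝ) with hrr
    have hr1 : 1 ≤ r := by rw [hrr]; exact_mod_cast hr
    have h1 := lor_psd (z := z + (-r) • w) h0 hξ (by rw [lor_add_smul_left, hzx, hwx]; ring)
    have h2 := lor_disp (hO _ (Γ.mul_mem c1 i1))
    rw [e1, lor_comb] at h2
    rw [lor_comb] at h1
    rw [lor_comm w z, hzz, hww] at h1 h2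
    have h3 : lor z w ≤ 2 * r * E := by
      have : r * lor z w ≤ r * (2 * r * E) := by nlinarith
      exact le_of_mul_le_mul_left this (by linarith)
    simp only [List.length_cons]
    push_cast
    nlinarith

end Growth

section Pong

/-- First shear. -/
def shA : Equiv.Perm (ℤ × ℤ) where
  toFun v := (v.1 + 2 * v.2, v.2)
  invFun v := (v.1 - 2 * v.2, v.2)
  left_inv v := by simp
  right_inv v := by simp

/-- Second shear. -/
def shB : Equiv.Perm (ℤ × ℤ) where
  toFun v := (v.1, v.2 + 2 * v.1)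
  invFun v := (v.1, v.2 - 2 * v.1)
  left_inv v := by simp
  right_inv v := by simp

/-- Two commutators. -/
def cc (b : Bool) : FreeGroup (Fin 2) :=
  if b then FreeGroup.of 0 * (FreeGroup.of 1)⁻¹ * (FreeGroup.of 0)⁻¹ * FreeGroup.of 1
  else FreeGroup.of 0 * FreeGroup.of 1 * (FreeGroup.of 0)⁻¹ * (FreeGroup.of 1)⁻¹

/-- The shear representation. -/
def psi : FreeGroup (Fin 2) →* Equiv.Perm (ℤ × ℤ) := FreeGroup.lift ![shA, shB]

lemma psi_true (v : ℤ × ℤ) : psi (cc true) v = (13 * v.1 + 8 * v.2, 8 * v.1 + 5 * v.2) := by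
  simp only [cc, psi, if_true, map_mul, map_inv, FreeGroup.lift_apply_of, Equiv.Perm.mul_apply,
    Equiv.Perm.inv_def]
  simp only [shA, shB, Matrix.cons_val_zero, Matrix.cons_val_one, Equiv.coe_fn_mk,
    Equiv.coe_fn_symm_mk, Prod.mk.injEq]
  constructor <;> ring

lemma psi_false (v : ℤ × ℤ) : psi (cc false) v = (21 * v.1 - 8 * v.2, 8 * v.1 - 3 * v.2) := by
  simp only [cc, psi, Bool.false_eq_true, if_false, map_mul, map_inv, FreeGroup.lift_apply_of,
    Equiv.Perm.mul_apply, Equiv.Perm.inv_def]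
  simp only [shA, shB, Matrix.cons_val_zero, Matrix.cons_val_one, Equiv.coe_fn_mk,
    Equiv.coe_fn_symm_mk, Prod.mk.injEq]
  constructor <;> ring

lemma cone (l : List Bool) : 0 ≤ (psi (l.map cc).prod (1, 0)).2 ∧
    (psi (l.map cc).prod (1, 0)).2 ≤ (psi (l.map cc).prod (1, 0)).1 ∧
    0 < (psi (l.map cc).prod (1, 0)).1 := by
  induction l with
  | nil => simp
  | cons b l ih =>
    rw [List.map_cons, List.prod_cons, map_mul, Equiv.Perm.mul_apply]
    cases b
    · rw [psi_false]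
      simp only
      omega
    · rw [psi_true]
      simp only
      omega

lemma word_inj : ∀ (l l' : List Bool), l.length = l'.length →
    (l.map cc).prod = (l'.map cc).prod → l = l'
  | [], [], _, _ => rfl
  | [], _ :: _, h, _ => by simp at h
  | _ :: _, [], h, _ => by simp at h
  | b :: l, b' :: l', h, e => by
    have hb : b = b' := by
      have e1 := congrArg (fun x => psi x (1, 0)) e
      simp only [List.map_cons, List.prod_cons, map_mul, Equiv.Perm.mul_apply] at e1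
      have c1 := cone l
      have c2 := cone l'
      cases b <;> cases b'
      · rfl
      · rw [psi_false, psi_true, Prod.mk.injEq] at e1
        omega
      · rw [psi_false, psi_true, Prod.mk.injEq] at e1
        omega
      · rfl
    subst hb
    simp only [List.map_cons, List.prod_cons, mul_right_inj] at e
    rw [word_inj l l' (by simpa using h) e]

end Pong

lemma exists_big (a b : ℕ) : ∃ t : ℕ, a + b * t < 2 ^ t := by
  refine ⟨a + b + 4, ?_⟩
  have h : ∀ s : ℕ, (s + 4) ^ 2 ≤ 2 ^ (s + 4) := by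
    intro s
    induction s with
    | zero => norm_num
    | succ s ih =>
      have h1 : 2 ^ (s + 1 + 4) = 2 * 2 ^ (s + 4) := by ring
      have h2 : (s + 1 + 4) ^ 2 ≤ 2 * (s + 4) ^ 2 := by nlinarith [Nat.zero_le (s * s)]
      omega
  have := h (a + b)
  nlinarith

variable {k : ℕ}

lemma eigen_of_closure {n : ℕ} (S : Finset (GL (Fin (n + 1)) ℝ)) {ξ : Fin (n + 1) → ℝ}
    (h0 : ξ 0 = 1) (hS : ∀ s ∈ S, ∃ c : ℝ, act s ξ = c • ξ) {x : GL (Fin (n + 1)) ℝ}
    (hx : x ∈ Subgroup.closure (S : Set (GL (Fin (n + 1)) ℝ))) :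
    ∃ c : ℝ, c ≠ 0 ∧ act x ξ = c • ξ ∧ act x⁻¹ ξ = c⁻¹ • ξ := by
  have aux : ∀ (x : GL (Fin (n + 1)) ℝ) (c : ℝ), act x ξ = c • ξ →
      c ≠ 0 ∧ act x⁻¹ ξ = c⁻¹ • ξ := by
    intro x c h
    have h1 : ξ = c • act x⁻¹ ξ := by
      rw [← act_smul, ← h, ← act_mul, inv_mul_cancel, act_one]
    have hc : c ≠ 0 := by
      rintro rfl
      have := congrFun h1 0
      simp [h0] at this
    refine ⟨hc, ?_⟩
    conv_rhs => rw [h1]
    rw [smul_smul, inv_mul_cancel₀ hc, one_smul]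
  suffices h : ∃ c : ℝ, act x ξ = c • ξ by
    obtain ⟨c, hc⟩ := h
    exact ⟨c, (aux x c hc).1, hc, (aux x c hc).2⟩
  induction hx using Subgroup.closure_induction with
  | mem x hx => exact hS x hx
  | one => exact ⟨1, by rw [act_one, one_smul]⟩
  | mul x y _ _ hx hy =>
    obtain ⟨a, ha⟩ := hx
    obtain ⟨b, hb⟩ := hy
    exact ⟨b * a, by rw [act_mul, hb, act_smul, ha, smul_smul]⟩
  | inv x _ hx =>
    obtain ⟨a, ha⟩ := hx
    exact ⟨a⁻¹, (aux x a ha).2⟩

lemma no_fix (hk : 2 ≤ k) (Γ : Subgroup (GL (Fin (k + 2)) ℝ)) (hO : ∀ g ∈ Γ, IsLor g)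
    (hd : DiscreteTopology Γ) (S : Finset (GL (Fin (k + 2)) ℝ))
    (hSΓ : Subgroup.closure (S : Set (GL (Fin (k + 2)) ℝ)) ≤ Γ)
    (φ : FreeGroup (Fin 2) →* GL (Fin (k + 2)) ℝ) (hφ : Function.Injective φ)
    (hr : φ.range ≤ Subgroup.closure (S : Set (GL (Fin (k + 2)) ℝ)))
    {ξ : Fin (k + 2) → ℝ} (h0 : ξ 0 = 1) (hξ : lor ξ ξ ≤ 0) :
    ¬ ∀ s ∈ S, ∃ c : ℝ, act s ξ = c • ξ := by
  classical
  intro hS
  obtain ⟨a, ha0, ha1, ha2⟩ := eigen_of_closure S h0 hS (hr ⟨FreeGroup.of 0, rfl⟩)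
  obtain ⟨b, hb0, hb1, hb2⟩ := eigen_of_closure S h0 hS (hr ⟨FreeGroup.of 1, rfl⟩)
  have hfix : ∀ t : Bool, act (φ (cc t)) ξ = ξ := by
    intro t
    cases t
    · simp only [cc, Bool.false_eq_true, if_false, map_mul, map_inv, act_mul, act_smul, ha1, ha2,
        hb1, hb2, smul_smul]
      rw [show b⁻¹ * (a⁻¹ * (b * a)) = 1 by field_simp, one_smul]
    · simp only [cc, if_true, map_mul, map_inv, act_mul, act_smul, ha1, ha2,
        hb1, hb2, smul_smul]
      rw [show b * (a⁻¹ * (b⁻¹ * a)) = 1 by field_simp, one_smul]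
  obtain ⟨A, hA0, hA⟩ := sum_inv_le hk Γ hO hd
  obtain ⟨d, hd1⟩ := pow_unbounded_of_one_lt
    (pt (φ (cc true)) 0 + pt (φ (cc false)) 0) (by norm_num : (1 : ℝ) < 2)
  obtain ⟨e, he⟩ := pow_unbounded_of_one_lt A (by norm_num : (1 : ℝ) < 2)
  obtain ⟨t, ht⟩ := exists_big (e + k * d) (2 * k)
  have hmem : ∀ x, φ x ∈ Γ := fun x => hSΓ (hr ⟨x, rfl⟩)
  have hp1 := one_le_pt (hO _ (hmem (cc true)))
  have hp2 := one_le_pt (hO _ (hmem (cc false)))
  set j := d + 2 * t with hj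
  have hcard : (Finset.univ : Finset (Fin (2 ^ t) → Bool)).card
      ≤ (finite_ball Γ hO hd (2 ^ j)).toFinset.card := by
    refine Finset.card_le_card_of_injOn (fun f => φ ((List.ofFn f).map cc).prod) ?_ ?_
    · intro f _
      simp only [Finset.mem_coe, Set.Finite.mem_toFinset, Set.mem_ofPred_eq]
      refine ⟨hmem _, ?_⟩
      have := horo_growth Γ hO h0 hξ (2 ^ d - 1) (((List.ofFn f).map cc).map φ) (by
        intro c hc
        simp only [List.mem_map] at hc
        obtain ⟨x, ⟨t, _, rfl⟩, rfl⟩ := hc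
        refine ⟨hmem _, hfix t, ?_⟩
        cases t <;> linarith)
      rw [← map_list_prod] at this
      have h3 := this.2.2
      simp only [List.length_map, List.length_ofFn] at h3
      push_cast at h3
      have h4 : (1 : ℝ) ≤ (2 ^ t) ^ 2 := one_le_pow₀ (one_le_pow₀ (by norm_num))
      have h5 : (2 : ℝ) ^ j = (2 ^ t) ^ 2 * 2 ^ d := by rw [hj]; ring
      rw [h5]
      nlinarith
    · intro f _ g _ hfg
      have := word_inj _ _ (by simp) (hφ hfg)
      exact List.ofFn_injective this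
  have h1 : ((finite_ball Γ hO hd (2 ^ j)).toFinset.card : ℝ) * (1 / 2 ^ j)
      ≤ ∑ g ∈ (finite_ball Γ hO hd (2 ^ j)).toFinset, 1 / pt g 0 := by
    rw [← nsmul_eq_mul]
    refine Finset.card_nsmul_le_sum _ _ _ fun g hg => ?_
    simp only [Set.Finite.mem_toFinset, Set.mem_ofPred_eq] at hg
    have := one_le_pt (hO g hg.1)
    exact one_div_le_one_div_of_le (by linarith) hg.2
  have h2 := h1.trans (hA j)
  rw [mul_one_div, div_le_iff₀ (by positivity)] at h2
  simp only [Finset.card_univ, Fintype.card_fun, Fintype.card_bool, Fintype.card_fin] at hcard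
  have h3 : (2 : ℝ) ^ (2 ^ t) ≤ ((finite_ball Γ hO hd (2 ^ j)).toFinset.card : ℝ) := by
    exact_mod_cast hcard
  have h4 : A * (2 ^ j) ^ (k - 1) * 2 ^ j ≤ 2 ^ (e + k * d + 2 * k * t) := by
    rw [mul_assoc, ← pow_succ, Nat.sub_add_cancel (by omega), ← pow_mul]
    have : e + k * d + 2 * k * t = e + j * k := by rw [hj]; ring
    rw [this, pow_add]
    gcongr
  have h5 : (2 : ℝ) ^ (e + k * d + 2 * k * t) < 2 ^ (2 ^ t) :=
    pow_lt_pow_right₀ (by norm_num) ht
  linarith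

end Pool.Agent.Lib.MP_60b36a_gt
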